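import Pool.Agent.KS6_42.BF.Constr

/-!
# Equivalent binary forms attached to indecomposable integers, in infinitely many fields

For every `m ≥ 2` there are infinitely many real quadratic fields with an admissible pair `(α, β)`
of indecomposable integers of norm `m (m + 1)` such that `Q_{α,m}` and `Q_{β,m}` are equivalent.

Idea: if `μ μ' = -m` and `ν ν' = -(m + 1)` then
`Q_{-μν',m}(x, y) = Q_{μν,m}(ν' x + μ' y, μ x + ν y)`. For `z = m ^ (2 k)` let `κ` have trace
`(m + 1)² z - 1` and norm `-(m + 1) z`; then `μ = 1 + (m + 1) κ` and `ν = κ μ ^ (2 k) / z` have the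
norms `-m` and `-(m + 1)`. The discriminants `A² z² - 2 B z + 1`, `A = (m + 1)²`, `B = m² - 1`, have
infinitely many squarefree parts, since the product of two of them which are not far from each other
lies strictly between two consecutive squares (up to a fixed square factor). Primitive totally
positive integers of norm at most `√D` are indecomposable.
-/

namespace Pool.Agent.Results.MP_d6b6f7_nt.EveryMiddleCoefficient

open Pool.Agent.KS6_42.BF

theorem result : ∀ m : ℕ, 2 ≤ m → ∀ C : ℕ, ∃ D : ℕ, C < D ∧ Squarefree D ∧ ∃ α β : K D,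
    Indec α ∧ Indec β ∧ Admissible α β ∧
    QuadraticAlgebra.norm α = m * (m + 1) ∧ QuadraticAlgebra.norm β = m * (m + 1) ∧
    0 < (m : ℚ) ^ 2 ∧ (m : ℚ) ^ 2 < QuadraticAlgebra.norm α ∧
    (m : ℚ) ^ 2 < QuadraticAlgebra.norm β ∧ Equivalent α m β m := by
  intro m hm C
  obtain ⟨k, f, s, hk, hs, hsq, hf⟩ := exists_large hm (max C ((m * (m + 1)) ^ 2))
  obtain ⟨μ, ν, hμ, hν, nμ, nν, eμ, eν, t, t', tμ, tν⟩ := exists_mu_nu (D := s) hm hk hf
  obtain ⟨h1, h2, h3, h4, h5, h6⟩ := main_abs hsq hm
    ((le_max_right C _).trans hs.le) hμ hν nμ nν eμ eν tμ tν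
  have hm0 : (0 : ℚ) < m := by
    have : 0 < m := by omega
    exact_mod_cast this
  refine ⟨s, lt_of_le_of_lt (le_max_left _ _) hs, hsq, μ * ν, -(μ * star ν), h1, h2, h3, h4, h5,
    by positivity, ?_, ?_, h6⟩
  · rw [h4]
    linarith
  · rw [h5]
    linarith

end Pool.Agent.Results.MP_d6b6f7_nt.EveryMiddleCoefficient
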